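import Mathlib

set_option maxHeartbeats 4000000

namespace Pool.Agent.Lib.LPF680

/-- The exponent function. -/
noncomputable def G (x : ℝ) : ℝ :=
  x * Real.log (Real.log x) ^ 2 / (Real.log x ^ 2 * Real.log (Real.log (Real.log x)))

lemma ev_logs : ∀ᶠ x : ℝ in Filter.atTop, 1 ≤ Real.log (Real.log (Real.log x)) ∧
    1 ≤ Real.log (Real.log x) ∧ 1 ≤ Real.log x ∧ 1 ≤ x ∧
    Real.log x ^ 3 ≤ x ^ (1 / 10 : ℝ) := by
  have h := Real.tendsto_log_atTop
  have h3 := (isLittleO_log_rpow_atTop (show (0:ℝ) < 1 / 30 by norm_num)).bound one_pos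
  filter_upwards [(h.comp (h.comp h)).eventually_ge_atTop 1, (h.comp h).eventually_ge_atTop 1,
    h.eventually_ge_atTop 1, Filter.eventually_ge_atTop 1, h3] with x a b c d e
  refine ⟨a, b, c, d, ?_⟩
  have hx0 : 0 < x := by linarith
  rw [Real.norm_of_nonneg (by linarith), Real.norm_of_nonneg (by positivity), one_mul] at e
  calc Real.log x ^ 3 ≤ (x ^ (1 / 30 : ℝ)) ^ 3 := pow_le_pow_left₀ (by linarith) e 3
    _ = x ^ (1 / 10 : ℝ) := by
      rw [← Real.rpow_natCast, ← Real.rpow_mul hx0.le]; norm_num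

lemma G_ge {x : ℝ} (h3 : 1 ≤ Real.log (Real.log (Real.log x))) (h2 : 1 ≤ Real.log (Real.log x))
    (h1 : 1 ≤ Real.log x) (h0 : 1 ≤ x) (h : Real.log x ^ 3 ≤ x ^ (1 / 10 : ℝ)) :
    x ^ (9 / 10 : ℝ) ≤ G x := by
  unfold G
  have hx0 : 0 < x := by linarith
  rw [le_div_iff₀ (by positivity)]
  have e1 : Real.log (Real.log (Real.log x)) ≤ Real.log x := by
    have a1 : Real.log (Real.log (Real.log x)) ≤ Real.log (Real.log x) := by
      have := Real.log_le_sub_one_of_pos (show 0 < Real.log (Real.log x) by linarith)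
      linarith
    have a2 : Real.log (Real.log x) ≤ Real.log x := by
      have := Real.log_le_sub_one_of_pos (show 0 < Real.log x by linarith)
      linarith
    linarith
  calc x ^ (9 / 10 : ℝ) * (Real.log x ^ 2 * Real.log (Real.log (Real.log x)))
      ≤ x ^ (9 / 10 : ℝ) * (Real.log x ^ 2 * Real.log x) := by gcongr
    _ = x ^ (9 / 10 : ℝ) * Real.log x ^ 3 := by ring
    _ ≤ x ^ (9 / 10 : ℝ) * x ^ (1 / 10 : ℝ) := by gcongr
    _ = x := by rw [← Real.rpow_add hx0]; norm_num
    _ = x * 1 := (mul_one x).symm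
    _ ≤ x * Real.log (Real.log x) ^ 2 := by
      gcongr
      nlinarith

lemma G_inv (a : ℝ) (ha : 0 < a) : ∀ᶠ w : ℝ in Filter.atTop, ∀ k : ℝ, w ≤ k →
    a * w * Real.log w ^ 2 * Real.log (Real.log (Real.log w)) / Real.log (Real.log w) ^ 2 ≤ k →
    a * w / 8 ≤ G k := by
  obtain ⟨x₁, hx₁⟩ := Filter.eventually_atTop.1 ev_logs
  have hpow : Filter.Tendsto (fun w : ℝ => w ^ (4 / 5 : ℝ)) Filter.atTop Filter.atTop :=
    tendsto_rpow_atTop (by norm_num)
  filter_upwards [Filter.eventually_ge_atTop x₁, Filter.eventually_ge_atTop 1,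
    hpow.eventually_ge_atTop (a / 8)] with w hw hw1 hwp k hk hk2
  obtain ⟨w3, w2, w1, w0, wp⟩ := hx₁ w hw
  obtain ⟨k3, k2, k1, k0, kp⟩ := hx₁ k (hw.trans hk)
  have hw0 : 0 < w := by linarith
  have hk0 : 0 < k := by linarith
  rcases le_or_gt k (w ^ 2) with hc | hc
  · have e1 : Real.log k ≤ 2 * Real.log w := by
      have := Real.log_le_log hk0 hc
      rwa [Real.log_pow, Nat.cast_ofNat] at this
    have e2 : Real.log (Real.log w) ≤ Real.log (Real.log k) :=
      Real.log_le_log (by linarith) (Real.log_le_log hw0 hk)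
    have l2 : Real.log 2 ≤ 1 := by
      have := Real.log_two_lt_d9; linarith
    have e3 : Real.log (Real.log k) ≤ 2 * Real.log (Real.log w) := by
      have := Real.log_le_log (by linarith : 0 < Real.log k) e1
      rw [Real.log_mul (by norm_num) (by linarith)] at this
      linarith
    have e4 : Real.log (Real.log (Real.log k)) ≤ 2 * Real.log (Real.log (Real.log w)) := by
      have := Real.log_le_log (by linarith : 0 < Real.log (Real.log k)) e3
      rw [Real.log_mul (by norm_num) (by linarith)] at this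
      linarith
    unfold G
    rw [le_div_iff₀ (by positivity)]
    rw [div_le_iff₀ (by positivity)] at hk2
    calc a * w / 8 * (Real.log k ^ 2 * Real.log (Real.log (Real.log k)))
        ≤ a * w / 8 * ((2 * Real.log w) ^ 2 * (2 * Real.log (Real.log (Real.log w)))) := by
          gcongr
      _ = a * w * Real.log w ^ 2 * Real.log (Real.log (Real.log w)) := by ring
      _ ≤ k * Real.log (Real.log w) ^ 2 := hk2
      _ ≤ k * Real.log (Real.log k) ^ 2 := by gcongr
  · refine le_trans ?_ (G_ge k3 k2 k1 k0 kp)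
    calc a * w / 8 = a / 8 * w := by ring
      _ ≤ w ^ (4 / 5 : ℝ) * w := by gcongr
      _ = w ^ (9 / 5 : ℝ) := by
        nth_rewrite 2 [← Real.rpow_one w]
        rw [← Real.rpow_add hw0]; norm_num
      _ = (w ^ 2) ^ (9 / 10 : ℝ) := by
        rw [← Real.rpow_natCast, ← Real.rpow_mul hw0.le]; norm_num
      _ ≤ k ^ (9 / 10 : ℝ) := by gcongr

end Pool.Agent.Lib.LPF680
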