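import Mathlib

set_option maxHeartbeats 4000000

namespace Pool.Agent.Lib.LPF680

open Finset

/-- Many primes in `(y, 4y]`. -/
lemma many_primes : ∃ y₀ : ℕ, ∀ y : ℕ, y₀ ≤ y →
    Nat.count Nat.Prime (y + 1) + Nat.sqrt y + 1 ≤ Nat.count Nat.Prime (4 * y + 1) := by
  have h1 := (isLittleO_log_rpow_atTop (show (0:ℝ) < 1 / 4 by norm_num)).bound
    (show (0:ℝ) < 1 / 100 by norm_num)
  have h2 : Filter.Tendsto (fun y : ℕ => (4 : ℝ) * y) Filter.atTop Filter.atTop :=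
    tendsto_natCast_atTop_atTop.const_mul_atTop (by norm_num)
  obtain ⟨y₀, hy₀⟩ := Filter.eventually_atTop.1 ((h2.eventually h1).and
    (Filter.eventually_ge_atTop 100))
  refine ⟨y₀, fun y hy => ?_⟩
  obtain ⟨h3, h4⟩ := hy₀ y hy
  have hy1 : (100 : ℝ) ≤ y := by exact_mod_cast h4
  set s : ℝ := (4 * (y : ℝ)) ^ (1 / 4 : ℝ) with hs
  have hs0 : 0 < s := by positivity
  have hs4 : s ^ 4 = 4 * y := by
    rw [hs, ← Real.rpow_natCast, ← Real.rpow_mul (by positivity)]; norm_num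
  have hlog0 : 0 < Real.log (4 * y) := Real.log_pos (by linarith)
  rw [Real.norm_of_nonneg hlog0.le, Real.norm_of_nonneg hs0.le] at h3
  have hs2 : 4 ≤ s := by
    by_contra hlt
    push Not at hlt
    have : s ^ 4 < 4 ^ 4 := pow_lt_pow_left₀ hlt hs0.le (by norm_num)
    rw [hs4] at this
    linarith
  have hsqrt : Real.sqrt (4 * y) = s ^ 2 := by
    rw [← hs4, show s ^ 4 = (s ^ 2) ^ 2 by ring, Real.sqrt_sq (by positivity)]
  have hth1 := Chebyshev.theta_ge (4 * y)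
  push_cast at hth1
  have hth2 := Chebyshev.theta_le_log4_mul_x (x := (y : ℝ)) (by positivity)
  have hlog4 : Real.log 4 = 2 * Real.log 2 := by
    rw [show (4 : ℝ) = 2 ^ 2 by norm_num, Real.log_pow]; norm_num
  have hlog2 := Real.log_two_gt_d9
  have hlogs : Real.log (4 * (y : ℝ) + 1) ≤ Real.log (4 * y) + 1 := by
    have h5 : Real.log (4 * (y : ℝ) + 1) ≤ Real.log (4 * y * Real.exp 1) := by
      apply Real.log_le_log (by positivity)
      have := Real.add_one_le_exp (1 : ℝ)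
      nlinarith
    rw [Real.log_mul (by positivity) (by positivity), Real.log_exp] at h5
    exact h5
  rw [hsqrt] at hth1
  -- difference of theta
  have hdiff : Chebyshev.theta (4 * (y : ℝ)) - Chebyshev.theta (y : ℝ) ≤
      ((Nat.count Nat.Prime (4 * y + 1) : ℝ) - Nat.count Nat.Prime (y + 1)) * Real.log (4 * y) := by
    have e1 : (4 * (y : ℝ)) = ((4 * y : ℕ) : ℝ) := by push_cast; ring
    rw [e1, Chebyshev.theta, Chebyshev.theta, Nat.floor_natCast, Nat.floor_natCast]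
    have hsub : (Ioc 0 y).filter Nat.Prime ⊆ (Ioc 0 (4 * y)).filter Nat.Prime :=
      filter_subset_filter _ (Ioc_subset_Ioc_right (by omega))
    rw [← Finset.sum_sdiff hsub, add_sub_cancel_right]
    have hle : ∀ p ∈ ((Ioc 0 (4 * y)).filter Nat.Prime) \ ((Ioc 0 y).filter Nat.Prime),
        Real.log (p : ℝ) ≤ Real.log ((4 * y : ℕ) : ℝ) := by
      intro p hp
      simp only [mem_sdiff, mem_filter, mem_Ioc] at hp
      exact Real.log_le_log (by exact_mod_cast hp.1.1.1) (by exact_mod_cast hp.1.1.2)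
    refine (Finset.sum_le_card_nsmul _ _ _ hle).trans ?_
    rw [nsmul_eq_mul, Finset.card_sdiff_of_subset hsub]
    have hc : ∀ m : ℕ, ((Ioc 0 m).filter Nat.Prime).card = Nat.count Nat.Prime (m + 1) := by
      intro m
      rw [Nat.count_eq_card_filter_range]
      congr 1
      ext p
      simp only [mem_filter, mem_Ioc, mem_range]
      constructor
      · rintro ⟨⟨_, h⟩, hp⟩; exact ⟨by omega, hp⟩
      · rintro ⟨h, hp⟩; exact ⟨⟨hp.pos, by omega⟩, hp⟩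
    rw [hc, hc, Nat.cast_sub (Nat.count_monotone _ (by omega))]
  have hsq : ((Nat.sqrt y : ℕ) : ℝ) ≤ s ^ 2 := by
    rw [← hsqrt]
    refine Real.le_sqrt_of_sq_le ?_
    have : (Nat.sqrt y) ^ 2 ≤ y := Nat.sqrt_le' y
    have h6 : ((Nat.sqrt y : ℕ) : ℝ) ^ 2 ≤ y := by exact_mod_cast this
    linarith
  -- main inequality
  have hmain : (s ^ 2 + 1) * Real.log (4 * y) ≤
      ((Nat.count Nat.Prime (4 * y + 1) : ℝ) - Nat.count Nat.Prime (y + 1)) *
        Real.log (4 * y) := by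
    refine le_trans ?_ hdiff
    have h7 : Real.log (4 * (y : ℝ)) * s ^ 2 ≤ 1 / 100 * s * s ^ 2 :=
      mul_le_mul_of_nonneg_right h3 (by positivity)
    have h8 : 1 / 100 * s * s ^ 2 ≤ s ^ 4 / 400 := by
      have : s ^ 3 * 4 ≤ s ^ 3 * s := mul_le_mul_of_nonneg_left hs2 (by positivity)
      nlinarith
    have h9 : Real.log (4 * (y : ℝ)) ≤ s ^ 4 / 400 := by
      have h10 : (1 : ℝ) ≤ s ^ 2 := by nlinarith
      have h11 : s * 4 ≤ s * (s * s ^ 2) := mul_le_mul_of_nonneg_left (by nlinarith) hs0.le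
      have : 4 * s ≤ s ^ 4 := by nlinarith
      linarith
    rw [hs4] at h8 h9
    nlinarith
  have hfin := le_of_mul_le_mul_right hmain hlog0
  have : (Nat.count Nat.Prime (y + 1) : ℝ) + Nat.sqrt y + 1 ≤ Nat.count Nat.Prime (4 * y + 1) := by
    linarith
  exact_mod_cast this

/-- The `k`-th reserved prime. -/
noncomputable def pk (j₀ k : ℕ) : ℕ :=
  Nat.nth Nat.Prime (Nat.count Nat.Prime (4 ^ (j₀ + Nat.sqrt k) + 1) + (k - Nat.sqrt k ^ 2))

lemma pk_prime (j₀ k : ℕ) : (pk j₀ k).Prime := Nat.prime_nth_prime _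

lemma pk_gt (j₀ k : ℕ) : 4 ^ (j₀ + Nat.sqrt k) < pk j₀ k := by
  have := (Nat.count_le_iff_le_nth (p := Nat.Prime) Nat.infinite_setOfPred_prime
    (a := 4 ^ (j₀ + Nat.sqrt k) + 1)
    (b := Nat.count Nat.Prime (4 ^ (j₀ + Nat.sqrt k) + 1) + (k - Nat.sqrt k ^ 2))).1 (by omega)
  exact this

lemma sq_le_four (m : ℕ) : (m + 1) ^ 2 ≤ 4 * 2 ^ m := by
  induction m with
  | zero => norm_num
  | succ m ih =>
    rcases Nat.lt_or_ge m 2 with h | h
    · interval_cases m <;> norm_num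
    · have : (m + 1 + 1) ^ 2 ≤ 2 * (m + 1) ^ 2 := by nlinarith
      calc (m + 1 + 1) ^ 2 ≤ 2 * (m + 1) ^ 2 := this
        _ ≤ 2 * (4 * 2 ^ m) := by omega
        _ = 4 * 2 ^ (m + 1) := by ring

lemma exists_j₀ : ∃ j₀ : ℕ, 3 ≤ j₀ ∧ ∀ k : ℕ, pk j₀ k ≤ 4 ^ (j₀ + Nat.sqrt k + 1) := by
  obtain ⟨y₀, hy₀⟩ := many_primes
  refine ⟨max 3 y₀, le_max_left _ _, fun k => ?_⟩
  set j := max 3 y₀ + Nat.sqrt k with hj
  have hj3 : 3 ≤ j := le_trans (le_max_left 3 y₀) (by omega)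
  have hjy : y₀ ≤ 4 ^ j := by
    calc y₀ ≤ j := le_trans (le_max_right 3 y₀) (by omega)
      _ ≤ 4 ^ j := (Nat.lt_pow_self (by norm_num)).le
  have h1 := hy₀ (4 ^ j) hjy
  have h2 : Nat.sqrt (4 ^ j) = 2 ^ j := by
    rw [show (4 : ℕ) ^ j = 2 ^ j * 2 ^ j by rw [← mul_pow]; norm_num]
    exact Nat.sqrt_eq _
  have h3 : k - Nat.sqrt k ^ 2 ≤ 2 * Nat.sqrt k := by
    have := Nat.sqrt_le_add k
    rw [← pow_two] at this
    omega
  have h4 : 2 * j ≤ 2 ^ j := by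
    obtain ⟨i, hi⟩ := Nat.exists_eq_add_of_le hj3
    rw [hi]
    clear_value j
    clear * -
    induction i with
    | zero => norm_num
    | succ i ih => rw [← add_assoc, pow_succ]; omega
  have h5 : pk (max 3 y₀) k < 4 * 4 ^ j + 1 := by
    unfold pk
    apply Nat.nth_lt_of_lt_count
    rw [h2] at h1
    rw [← hj]
    have h6 : Nat.sqrt k ≤ j := by omega
    omega
  calc pk (max 3 y₀) k ≤ 4 * 4 ^ j := by omega
    _ = 4 ^ (j + 1) := by ring

lemma pk_inj {j₀ : ℕ} (h : ∀ k : ℕ, pk j₀ k ≤ 4 ^ (j₀ + Nat.sqrt k + 1)) :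
    Function.Injective (pk j₀) := by
  intro k k' hkk
  have hs : Nat.sqrt k = Nat.sqrt k' := by
    by_contra hne
    rcases Nat.lt_or_gt_of_ne hne with hlt | hlt
    · have h1 := h k
      have h2 := pk_gt j₀ k'
      have h3 : 4 ^ (j₀ + Nat.sqrt k + 1) ≤ 4 ^ (j₀ + Nat.sqrt k') :=
        Nat.pow_le_pow_right (by norm_num) (by omega)
      omega
    · have h1 := h k'
      have h2 := pk_gt j₀ k
      have h3 : 4 ^ (j₀ + Nat.sqrt k' + 1) ≤ 4 ^ (j₀ + Nat.sqrt k) :=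
        Nat.pow_le_pow_right (by norm_num) (by omega)
      omega
  have h1 := Nat.nth_injective (p := Nat.Prime) Nat.infinite_setOfPred_prime hkk
  rw [hs] at h1
  have h2 : Nat.sqrt k ^ 2 ≤ k := Nat.sqrt_le' k
  have h3 : Nat.sqrt k' ^ 2 ≤ k' := Nat.sqrt_le' k'
  rw [hs] at h2
  omega

lemma sum_recip_sq (n : ℕ) : ∑ k ∈ Ioc 0 n, 1 / ((k : ℝ) + 1) ^ 2 ≤ 1 - 1 / ((n : ℝ) + 1) := by
  induction n with
  | zero => simp
  | succ n ih =>
    rw [← Finset.insert_Ioc_right_eq_Ioc_add_one (by omega : 0 ≤ n), Finset.sum_insert (by simp)]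
    push_cast
    have h1 : (0 : ℝ) < (n : ℝ) + 1 := by positivity
    have h2 : 1 / ((n : ℝ) + 1 + 1) ^ 2 ≤ 1 / ((n : ℝ) + 1) - 1 / ((n : ℝ) + 1 + 1) := by
      rw [div_sub_div _ _ (by positivity) (by positivity), div_le_div_iff₀ (by positivity)
        (by positivity)]
      nlinarith
    linarith

lemma weier (s : Finset ℕ) (x : ℕ → ℝ) (h0 : ∀ q ∈ s, 0 ≤ x q) (h1 : ∀ q ∈ s, x q ≤ 1) :
    1 - ∑ q ∈ s, x q ≤ ∏ q ∈ s, (1 - x q) := by
  classical
  induction s using Finset.induction_on with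
  | empty => simp
  | insert a s ha ih =>
    rw [Finset.sum_insert ha, Finset.prod_insert ha]
    have h2 := ih (fun q hq => h0 q (Finset.mem_insert_of_mem hq))
      (fun q hq => h1 q (Finset.mem_insert_of_mem hq))
    have h3 := h0 a (Finset.mem_insert_self _ _)
    have h4 := h1 a (Finset.mem_insert_self _ _)
    have h5 : 0 ≤ ∑ q ∈ s, x q := Finset.sum_nonneg fun q hq => h0 q (Finset.mem_insert_of_mem hq)
    have h6 : (1 - x a) * (1 - ∑ q ∈ s, x q) ≤ (1 - x a) * ∏ q ∈ s, (1 - x q) :=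
      mul_le_mul_of_nonneg_left h2 (by linarith)
    nlinarith

lemma pk_large (j₀ k : ℕ) (hj : 3 ≤ j₀) : 4 * (k + 1) ^ 2 < pk j₀ k := by
  have h2 : 4 ^ (j₀ + Nat.sqrt k) < pk j₀ k := pk_gt j₀ k
  have h3 : (k + 1) ^ 2 ≤ 16 * 4 ^ Nat.sqrt k := by
    have h4 : k + 1 ≤ (Nat.sqrt k + 1) ^ 2 := by
      have := Nat.lt_succ_sqrt' k
      rw [Nat.succ_eq_add_one] at this
      omega
    calc (k + 1) ^ 2 ≤ ((Nat.sqrt k + 1) ^ 2) ^ 2 := Nat.pow_le_pow_left h4 2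
      _ ≤ (4 * 2 ^ Nat.sqrt k) ^ 2 := Nat.pow_le_pow_left (sq_le_four _) 2
      _ = 16 * 4 ^ Nat.sqrt k := by
        rw [mul_pow, ← pow_mul, mul_comm (Nat.sqrt k) 2, pow_mul]; norm_num
  have h5 : 4 * (k + 1) ^ 2 ≤ 4 ^ (j₀ + Nat.sqrt k) := by
    calc 4 * (k + 1) ^ 2 ≤ 64 * 4 ^ Nat.sqrt k := by omega
      _ = 4 ^ (3 + Nat.sqrt k) := by rw [pow_add]; norm_num
      _ ≤ _ := Nat.pow_le_pow_right (by norm_num) (by omega)
  omega

lemma pk_prod {j₀ : ℕ} (hj : 3 ≤ j₀) (h : ∀ k : ℕ, pk j₀ k ≤ 4 ^ (j₀ + Nat.sqrt k + 1)) (n : ℕ)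
    (K : Finset ℕ) (hK : K ⊆ Ioc 0 n) :
    1 / 2 ≤ ∏ p ∈ K.image (pk j₀), (1 - 1 / (p : ℝ)) := by
  have h0 := weier (K.image (pk j₀)) (fun p => 1 / (p : ℝ)) (fun q _ => by positivity)
    (fun q hq => by
      obtain ⟨k, _, rfl⟩ := Finset.mem_image.1 hq
      have h1 : (1 : ℝ) ≤ pk j₀ k := by exact_mod_cast (pk_prime j₀ k).one_lt.le
      rw [div_le_one (by linarith)]
      exact h1)
  refine le_trans ?_ h0
  rw [Finset.sum_image (fun a _ b _ hab => pk_inj h hab)]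
  have h1 : ∑ k ∈ K, 1 / ((pk j₀ k : ℕ) : ℝ) ≤
      ∑ k ∈ Ioc 0 n, 1 / 4 * (1 / ((k : ℝ) + 1) ^ 2) := by
    refine le_trans (Finset.sum_le_sum (g := fun k : ℕ => 1 / 4 * (1 / ((k : ℝ) + 1) ^ 2)) ?_)
      (Finset.sum_le_sum_of_subset_of_nonneg hK (fun _ _ _ => by positivity))
    intro k _
    have h6 : (4 : ℝ) * ((k : ℝ) + 1) ^ 2 ≤ pk j₀ k := by exact_mod_cast (pk_large j₀ k hj).le
    rw [show (1 : ℝ) / 4 * (1 / ((k : ℝ) + 1) ^ 2) = 1 / (4 * ((k : ℝ) + 1) ^ 2) by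
      field_simp]
    exact one_div_le_one_div_of_le (by positivity) h6
  rw [← Finset.mul_sum] at h1
  have h2 := sum_recip_sq n
  have h3 : (0 : ℝ) ≤ 1 / ((n : ℝ) + 1) := by positivity
  linarith

/-- The `m`-th odd prime is at most `(2m)² + 1`. -/
lemma nth_le (m : ℕ) (hm : 1 ≤ m) : Nat.nth Nat.Prime m ≤ 4 * m ^ 2 + 1 := by
  suffices h : m < Nat.count Nat.Prime (4 * m ^ 2 + 1 + 1) by
    have := Nat.nth_lt_of_lt_count h
    omega
  rcases Nat.lt_or_ge m 3 with h | h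
  · interval_cases m <;> decide
  · have h1 := Chebyshev.pi_ge (4 * m ^ 2 + 1)
    have hm3 : (3 : ℝ) ≤ m := by exact_mod_cast h
    have hb : Real.log (2 * (m : ℝ) + 1) ≤ 1.8352 + m / 8 := by
      have h2 : Real.log ((2 * (m : ℝ) + 1) / 16) ≤ (2 * (m : ℝ) + 1) / 16 - 1 :=
        Real.log_le_sub_one_of_pos (by positivity)
      rw [Real.log_div (by positivity) (by norm_num)] at h2
      have h3 : Real.log 16 = 4 * Real.log 2 := by
        rw [show (16 : ℝ) = 2 ^ 4 by norm_num, Real.log_pow]; norm_num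
      have h4 := Real.log_two_lt_d9
      rw [h3] at h2
      linarith
    have e2 : Real.log ((2 * (m : ℝ) + 1) ^ 2) = 2 * Real.log (2 * (m : ℝ) + 1) := by
      rw [Real.log_pow]; norm_num
    have hn1 : Real.log (4 * (m : ℝ) ^ 2 + 1) ≤ 2 * Real.log (2 * (m : ℝ) + 1) := by
      rw [← e2]
      exact Real.log_le_log (by positivity) (by nlinarith)
    have hn2 : Real.log (4 * (m : ℝ) ^ 2 + 1 + 1) ≤ 2 * Real.log (2 * (m : ℝ) + 1) := by
      rw [← e2]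
      exact Real.log_le_log (by positivity) (by nlinarith)
    have hpos : 0 < Real.log (4 * (m : ℝ) ^ 2 + 1) := Real.log_pos (by nlinarith)
    have h2l := Real.log_two_gt_d9
    have hlt : (m : ℝ) < ((4 * (m : ℝ) ^ 2 + 1) * Real.log 2 - Real.log (4 * (m : ℝ) ^ 2 + 1 + 1)) /
        Real.log (4 * (m : ℝ) ^ 2 + 1) := by
      rw [lt_div_iff₀ hpos]
      have a1 : (m : ℝ) * Real.log (4 * (m : ℝ) ^ 2 + 1) ≤ m * (2 * (1.8352 + m / 8)) := by
        apply mul_le_mul_of_nonneg_left _ (by positivity)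
        linarith
      have a2 : (4 * (m : ℝ) ^ 2 + 1) * 0.693 ≤ (4 * (m : ℝ) ^ 2 + 1) * Real.log 2 := by
        apply mul_le_mul_of_nonneg_left _ (by positivity)
        linarith
      nlinarith
    push_cast at h1
    have h3 : (m : ℝ) < (Nat.primeCounting (4 * m ^ 2 + 1) : ℝ) := lt_of_lt_of_le hlt h1
    exact_mod_cast h3

end Pool.Agent.Lib.LPF680
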