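import Pool.Agent.Lib.LPF680.Run
import Pool.Agent.Lib.LPF680.Own
import Pool.Agent.Lib.LPF680.Asym

set_option maxHeartbeats 4000000

namespace Pool.Agent.Lib.LPF680

open Finset

lemma ev_L (j₀ k₀ : ℕ) : ∀ᶠ L : ℝ in Filter.atTop, 1 ≤ L ∧
    2 * L ^ (3 / 2 : ℝ) ≤ Real.exp (Real.sqrt L) ∧
    ((j₀ : ℝ) + 1 + L ^ (3 / 4 : ℝ)) * Real.log 4 ≤ L ∧
    (k₀ : ℝ) + 1 ≤ L ^ (3 / 2 : ℝ) ∧
    Real.log 4 + L ≤ L ^ (27 / 20 : ℝ) := by
  have hexp : Filter.Tendsto (fun L : ℝ => Real.sqrt L) Filter.atTop Filter.atTop :=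
    Real.tendsto_sqrt_atTop
  have h1 := hexp.eventually ((Real.isLittleO_pow_exp_atTop (n := 3)).bound
    (show (0 : ℝ) < 1 / 2 by norm_num))
  have h2 := (tendsto_rpow_atTop (show (0 : ℝ) < 1 / 4 by norm_num)).eventually_ge_atTop 4
  have h3 := (tendsto_rpow_atTop (show (0 : ℝ) < 3 / 2 by norm_num)).eventually_ge_atTop
    ((k₀ : ℝ) + 1)
  have h4 := (tendsto_rpow_atTop (show (0 : ℝ) < 7 / 20 by norm_num)).eventually_ge_atTop 3
  filter_upwards [h1, h2, h3, h4, Filter.eventually_ge_atTop (4 * ((j₀ : ℝ) + 2))] with L h1 h2 h3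
    h4 h5
  have hj : (0 : ℝ) ≤ j₀ := Nat.cast_nonneg _
  have hL0 : 0 < L := by linarith
  have hL1 : 1 ≤ L := by linarith
  have hlog4 : Real.log 4 = 2 * Real.log 2 := by
    rw [show (4 : ℝ) = 2 ^ 2 by norm_num, Real.log_pow]; norm_num
  have hlog2 := Real.log_two_gt_d9
  have hlog2' := Real.log_two_lt_d9
  refine ⟨hL1, ?_, ?_, h3, ?_⟩
  · rw [Real.norm_of_nonneg (by positivity), Real.norm_of_nonneg (by positivity)] at h1
    have e0 : L ^ (3 / 2 : ℝ) = Real.sqrt L ^ 3 := by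
      rw [Real.sqrt_eq_rpow, ← Real.rpow_natCast, ← Real.rpow_mul hL0.le]; norm_num
    rw [e0]
    linarith
  · have e0 : L = L ^ (3 / 4 : ℝ) * L ^ (1 / 4 : ℝ) := by
      rw [← Real.rpow_add hL0]; norm_num
    have e1 : 4 * L ^ (3 / 4 : ℝ) ≤ L := by
      have e2 : 0 ≤ L ^ (3 / 4 : ℝ) := by positivity
      nlinarith
    have e3 : (0 : ℝ) ≤ L ^ (3 / 4 : ℝ) := by positivity
    nlinarith
  · have e1 : L ^ (27 / 20 : ℝ) = L * L ^ (7 / 20 : ℝ) := by
      nth_rewrite 2 [← Real.rpow_one L]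
      rw [← Real.rpow_add hL0]; norm_num
    rw [e1]
    nlinarith

lemma ev_w (c : ℝ) (hc : 0 < c) : ∀ᶠ w : ℝ in Filter.atTop,
    Real.sqrt w * Real.log (4 * w) ≤ 6 / 10 * w ∧
    5 * w ^ (1 / 3 : ℝ) * Real.log w ≤ w ^ (9 / 20 : ℝ) ∧
    c * w * Real.log w ^ 2 * Real.log (Real.log (Real.log w)) / Real.log (Real.log w) ^ 2 ≤
      w ^ 2 ∧
    w ≤ c * w * Real.log w ^ 2 * Real.log (Real.log (Real.log w)) / Real.log (Real.log w) ^ 2 := by
  have h1 := (isLittleO_log_rpow_atTop (show (0:ℝ) < 1 / 20 by norm_num)).bound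
    (show (0 : ℝ) < 1 / 10 by norm_num)
  have h2 := (tendsto_rpow_atTop (show (0 : ℝ) < 1 / 20 by norm_num)).eventually_ge_atTop 5
  have h3 := (tendsto_rpow_atTop (show (0 : ℝ) < 9 / 10 by norm_num)).eventually_ge_atTop c
  have h4 := Real.tendsto_log_atTop.eventually
    ((isLittleO_log_rpow_atTop (show (0:ℝ) < 1 / 2 by norm_num)).bound one_pos)
  have h5 := Real.tendsto_log_atTop.eventually_ge_atTop (1 / c)
  filter_upwards [ev_logs, h1, h2, h3, h4, h5, Filter.eventually_ge_atTop 4] with w hl h1 h2 h3 h4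
    h5 h6
  obtain ⟨l3, l2, l1, l0, lp⟩ := hl
  have hw0 : 0 < w := by linarith
  rw [Real.norm_of_nonneg (by linarith), Real.norm_of_nonneg (by positivity)] at h1
  rw [Real.norm_of_nonneg (by linarith), Real.norm_of_nonneg (by positivity), one_mul,
    ← Real.sqrt_eq_rpow] at h4
  have hl2 : Real.log (Real.log w) ^ 2 ≤ Real.log w := by
    calc Real.log (Real.log w) ^ 2 ≤ (Real.sqrt (Real.log w)) ^ 2 :=
          pow_le_pow_left₀ (by linarith) h4 2
      _ = Real.log w := Real.sq_sqrt (by linarith)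
  have hl3 : Real.log (Real.log (Real.log w)) ≤ Real.log w := by
    have a1 : Real.log (Real.log (Real.log w)) ≤ Real.log (Real.log w) := by
      have := Real.log_le_sub_one_of_pos (show 0 < Real.log (Real.log w) by linarith)
      linarith
    have a2 : Real.log (Real.log w) ≤ Real.log w := by
      have := Real.log_le_sub_one_of_pos (show 0 < Real.log w by linarith)
      linarith
    linarith
  refine ⟨?_, ?_, ?_, ?_⟩
  · have e1 : Real.log (4 * w) ≤ 3 * Real.log w := by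
      rw [Real.log_mul (by norm_num) (by linarith)]
      have : Real.log 4 ≤ Real.log w := Real.log_le_log (by norm_num) h6
      linarith
    have e2 : w ^ (1 / 20 : ℝ) ≤ Real.sqrt w := by
      rw [Real.sqrt_eq_rpow]
      exact Real.rpow_le_rpow_of_exponent_le l0 (by norm_num)
    have e3 : Real.sqrt w * Real.sqrt w = w := Real.mul_self_sqrt hw0.le
    have e4 : 0 ≤ Real.sqrt w := Real.sqrt_nonneg w
    calc Real.sqrt w * Real.log (4 * w) ≤ Real.sqrt w * (3 / 10 * Real.sqrt w) := by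
          gcongr
          linarith
      _ = 3 / 10 * (Real.sqrt w * Real.sqrt w) := by ring
      _ = 3 / 10 * w := by rw [e3]
      _ ≤ _ := by linarith
  · have e1 : w ^ (9 / 20 : ℝ) = w ^ (1 / 3 : ℝ) * (w ^ (1 / 20 : ℝ) * w ^ (1 / 15 : ℝ)) := by
      rw [← Real.rpow_add hw0, ← Real.rpow_add hw0]; norm_num
    have e2 : (1 : ℝ) ≤ w ^ (1 / 15 : ℝ) := Real.one_le_rpow l0 (by norm_num)
    rw [e1]
    have e3 : 5 * Real.log w ≤ w ^ (1 / 20 : ℝ) * w ^ (1 / 15 : ℝ) := by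
      have e4 : (0 : ℝ) ≤ w ^ (1 / 20 : ℝ) := by positivity
      nlinarith
    have e5 : (0 : ℝ) ≤ w ^ (1 / 3 : ℝ) := by positivity
    calc 5 * w ^ (1 / 3 : ℝ) * Real.log w = w ^ (1 / 3 : ℝ) * (5 * Real.log w) := by ring
      _ ≤ _ := mul_le_mul_of_nonneg_left e3 e5
  · rw [div_le_iff₀ (by positivity)]
    calc c * w * Real.log w ^ 2 * Real.log (Real.log (Real.log w))
        ≤ w ^ (9 / 10 : ℝ) * w * Real.log w ^ 2 * Real.log w := by gcongr
      _ = w ^ (9 / 10 : ℝ) * w * Real.log w ^ 3 := by ring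
      _ ≤ w ^ (9 / 10 : ℝ) * w * w ^ (1 / 10 : ℝ) := by gcongr
      _ = w * (w ^ (9 / 10 : ℝ) * w ^ (1 / 10 : ℝ)) := by ring
      _ = w ^ 2 := by rw [← Real.rpow_add hw0]; norm_num; ring
      _ = w ^ 2 * 1 := (mul_one _).symm
      _ ≤ w ^ 2 * Real.log (Real.log w) ^ 2 := by
        gcongr
        nlinarith
  · rw [le_div_iff₀ (by positivity)]
    have e1 : 1 ≤ c * Real.log w := by
      rw [div_le_iff₀ hc] at h5
      linarith
    calc w * Real.log (Real.log w) ^ 2 ≤ w * Real.log w := by gcongr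
      _ ≤ w * Real.log w * (c * Real.log w) := by
        apply le_mul_of_one_le_right (by positivity) e1
      _ = c * w * Real.log w ^ 2 * 1 := by ring
      _ ≤ c * w * Real.log w ^ 2 * Real.log (Real.log (Real.log w)) := by gcongr

end Pool.Agent.Lib.LPF680
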