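import Pool.Agent.Lib.LPF680.Event

set_option maxHeartbeats 4000000

namespace Pool.Agent.Lib.LPF680

open Finset

lemma ev_k (j₀ : ℕ) : ∀ᶠ k : ℝ in Filter.atTop,
    ((j₀ : ℝ) + 1 + Real.sqrt k) * Real.log 4 ≤ k ^ (9 / 10 : ℝ) ∧
    Real.log (2 * k) ≤ k ^ (9 / 10 : ℝ) := by
  have h1 := (isLittleO_log_rpow_atTop (show (0:ℝ) < 9 / 10 by norm_num)).bound
    (show (0 : ℝ) < 1 / 2 by norm_num)
  have h2 := (tendsto_rpow_atTop (show (0 : ℝ) < 2 / 5 by norm_num)).eventually_ge_atTop 4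
  have h3 := (tendsto_rpow_atTop (show (0 : ℝ) < 9 / 10 by norm_num)).eventually_ge_atTop
    (4 * ((j₀ : ℝ) + 2))
  filter_upwards [h1, h2, h3, Filter.eventually_ge_atTop 1] with k h1 h2 h3 h4
  have hj : (0 : ℝ) ≤ j₀ := Nat.cast_nonneg _
  have hk0 : 0 < k := by linarith
  have hlog4 : Real.log 4 = 2 * Real.log 2 := by
    rw [show (4 : ℝ) = 2 ^ 2 by norm_num, Real.log_pow]; norm_num
  have hlog2 := Real.log_two_gt_d9
  have hlog2' := Real.log_two_lt_d9
  constructor
  · have e0 : k ^ (9 / 10 : ℝ) = Real.sqrt k * k ^ (2 / 5 : ℝ) := by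
      rw [Real.sqrt_eq_rpow, ← Real.rpow_add hk0]; norm_num
    have e1 : 0 ≤ Real.sqrt k := Real.sqrt_nonneg k
    have e2 : 4 * Real.sqrt k ≤ k ^ (9 / 10 : ℝ) := by
      rw [e0]; nlinarith
    nlinarith
  · rw [Real.norm_of_nonneg (Real.log_nonneg h4), Real.norm_of_nonneg (by positivity)] at h1
    rw [Real.log_mul (by norm_num) (by linarith)]
    linarith

/-- own primes in `(w, 4w]` -/
noncomputable def ow (w n : ℕ) : ℕ := Nat.nth Nat.Prime (Nat.count Nat.Prime (w + 1) + n)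

lemma ow_prime (w n : ℕ) : (ow w n).Prime := Nat.prime_nth_prime _

lemma ow_gt (w n : ℕ) : w < ow w n := by
  have := (Nat.count_le_iff_le_nth (p := Nat.Prime) Nat.infinite_setOfPred_prime
    (a := w + 1) (b := Nat.count Nat.Prime (w + 1) + n)).1 (by omega)
  exact this

lemma ow_le {w n : ℕ}
    (h : Nat.count Nat.Prime (w + 1) + Nat.sqrt w + 1 ≤ Nat.count Nat.Prime (4 * w + 1))
    (hn : n ≤ Nat.sqrt w) : ow w n ≤ 4 * w := by
  have : ow w n < 4 * w + 1 := by
    unfold ow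
    apply Nat.nth_lt_of_lt_count
    omega
  omega

lemma ow_count (w n : ℕ) : Nat.count Nat.Prime (ow w n) - Nat.count Nat.Prime (w + 1) = n := by
  unfold ow
  rw [Nat.count_nth_of_infinite (p := Nat.Prime) Nat.infinite_setOfPred_prime]
  omega

lemma minFac_le {m q : ℕ} (hq : q.Prime) (h : q ∣ m) : m.minFac ≤ q :=
  Nat.minFac_le_of_dvd hq.two_le h

open Classical in
theorem main : ∃ C : ℝ, 0 < C ∧ ∃ k₀ : ℕ, ∀ M : ℕ, ∃ n : ℕ, M ≤ n ∧
    (∀ k : ℕ, 1 ≤ k → k < k₀ → (n + k).minFac ≤ k ^ 2 + 1) ∧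
    ∀ k : ℕ, k₀ ≤ k → ((n + k).minFac : ℝ) ≤ Real.exp (C * G k) := by
  obtain ⟨η, hη, w₀, hrun⟩ := run_fac
  obtain ⟨c, hc, x₀, hpre⟩ := Pool.Agent.Presieve.presieve4 η hη
  obtain ⟨j₀, hj3, hpk⟩ := exists_j₀
  obtain ⟨y₀, hy₀⟩ := many_primes
  obtain ⟨x₁, hx₁⟩ := Filter.eventually_atTop.1 (ev_logs.and (ev_k j₀))
  set k₀ : ℕ := ⌈max x₁ 1⌉₊ with hk₀
  have hk₀1 : 1 ≤ k₀ := by
    have h1 : (1 : ℝ) ≤ ⌈max x₁ 1⌉₊ := le_trans (le_max_right _ _) (Nat.le_ceil _)
    exact_mod_cast h1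
  set E₀ : Finset ℕ := (range k₀).image (Nat.nth Nat.Prime) with hE₀
  have hE₀prime : ∀ p ∈ E₀, p.Prime := by
    intro p hp
    obtain ⟨m, _, rfl⟩ := mem_image.1 hp
    exact Nat.prime_nth_prime m
  have hcount : ∀ p : ℕ, p.Prime → Nat.count Nat.Prime p < k₀ → p ≤ 4 * k₀ ^ 2 + 1 := by
    intro p hp hpk
    rw [← Nat.nth_count hp]
    rcases Nat.eq_zero_or_pos (Nat.count Nat.Prime p) with h0 | h0
    · rw [h0, Nat.nth_prime_zero_eq_two]
      nlinarith
    · refine (nth_le _ h0).trans ?_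
      have := Nat.pow_le_pow_left hpk.le 2
      omega
  have hE₀mem : ∀ p : ℕ, p.Prime → (p ∈ E₀ ↔ Nat.count Nat.Prime p < k₀) := by
    intro p hp
    constructor
    · intro h
      obtain ⟨m, hm, rfl⟩ := mem_image.1 h
      rw [Nat.count_nth_of_infinite (p := Nat.Prime) Nat.infinite_setOfPred_prime]
      exact mem_range.1 hm
    · intro h
      exact mem_image.2 ⟨_, mem_range.2 h, Nat.nth_count hp⟩
  set δ : ℝ := ∏ p ∈ E₀, (1 - 1 / (p : ℝ)) with hδ
  have hδ0 : 0 < δ := by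
    apply Finset.prod_pos
    intro p hp
    have h2 : (2 : ℝ) ≤ p := by exact_mod_cast (hE₀prime p hp).two_le
    have h3 : 1 / (p : ℝ) ≤ 1 / 2 := one_div_le_one_div_of_le (by norm_num) h2
    linarith
  set a : ℝ := c * δ / 2 with ha
  have ha0 : 0 < a := by positivity
  set C : ℝ := 88 / a + 1 with hC
  have hC1 : 1 ≤ C := by
    have : (0 : ℝ) ≤ 88 / a := by positivity
    linarith
  have hCa : 88 / a ≤ C := by linarith
  -- facts for `k ≥ k₀`
  have hkx : ∀ k : ℕ, k₀ ≤ k → x₁ ≤ k ∧ (1 : ℝ) ≤ k := by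
    intro k hk
    have h1 : max x₁ 1 ≤ k := (Nat.le_ceil _).trans (by exact_mod_cast hk)
    exact ⟨le_trans (le_max_left _ _) h1, le_trans (le_max_right _ _) h1⟩
  have hGk : ∀ k : ℕ, k₀ ≤ k → (k : ℝ) ^ (9 / 10 : ℝ) ≤ C * G k := by
    intro k hk
    obtain ⟨⟨l3, l2, l1, l0, lp⟩, _, _⟩ := hx₁ k (hkx k hk).1
    have h1 := G_ge l3 l2 l1 l0 lp
    have h2 : (0 : ℝ) ≤ (k : ℝ) ^ (9 / 10 : ℝ) := by positivity
    nlinarith
  refine ⟨C, by linarith, k₀, fun M => ?_⟩
  -- choice of `w`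
  have hev : ∀ᶠ w : ℝ in Filter.atTop,
      (1 ≤ Real.log w ∧ 2 * Real.log w ^ (3 / 2 : ℝ) ≤ Real.exp (Real.sqrt (Real.log w)) ∧
      ((j₀ : ℝ) + 1 + Real.log w ^ (3 / 4 : ℝ)) * Real.log 4 ≤ Real.log w ∧
      (k₀ : ℝ) + 1 ≤ Real.log w ^ (3 / 2 : ℝ) ∧
      Real.log 4 + Real.log w ≤ Real.log w ^ (27 / 20 : ℝ)) ∧
      (Real.sqrt w * Real.log (4 * w) ≤ 6 / 10 * w ∧
      5 * w ^ (1 / 3 : ℝ) * Real.log w ≤ w ^ (9 / 20 : ℝ) ∧
      a * w * Real.log w ^ 2 * Real.log (Real.log (Real.log w)) / Real.log (Real.log w) ^ 2 ≤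
        w ^ 2 ∧
      w ≤ a * w * Real.log w ^ 2 * Real.log (Real.log (Real.log w)) /
        Real.log (Real.log w) ^ 2) ∧
      (∀ k : ℝ, w ≤ k →
        a * w * Real.log w ^ 2 * Real.log (Real.log (Real.log w)) / Real.log (Real.log w) ^ 2 ≤ k →
        a * w / 8 ≤ G k) :=
    (Real.tendsto_log_atTop.eventually (ev_L j₀ k₀)).and ((ev_w a ha0).and (G_inv a ha0))
  obtain ⟨w, ⟨⟨⟨hL1, hLE, hL4, hLk, hL27⟩, ⟨hw6, hw5, hwU, hUw⟩, hinv⟩, hwbig⟩⟩ :=
    ((tendsto_natCast_atTop_atTop (R := ℝ)).eventually hev).and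
      (Filter.eventually_ge_atTop (w₀ + x₀ + y₀ + M + 5 + (4 * k₀ ^ 2 + 1))) |>.exists
  have hw0 : (0 : ℝ) < w := by
    have : 0 < w := by omega
    exact_mod_cast this
  set L := Real.log (w : ℝ) with hL
  have hL0 : 0 < L := by linarith
  have hexpL : Real.exp L = w := Real.exp_log hw0
  -- reserved primes
  set w₁ : ℕ := ⌊L ^ (3 / 2 : ℝ)⌋₊ with hw₁
  have hw₁le : (w₁ : ℝ) ≤ L ^ (3 / 2 : ℝ) := Nat.floor_le (by positivity)
  have hw₁gt : L ^ (3 / 2 : ℝ) < w₁ + 1 := Nat.lt_floor_add_one _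
  have hw₁k : k₀ ≤ w₁ := by
    have : (k₀ : ℝ) ≤ w₁ := by linarith
    exact_mod_cast this
  have hpkw : ∀ k : ℕ, k ≤ w₁ → pk j₀ k ≤ w := by
    intro k hk
    have h1 := hpk k
    have h2 : ((pk j₀ k : ℕ) : ℝ) ≤ w := by
      have h3 : ((pk j₀ k : ℕ) : ℝ) ≤ (4 : ℝ) ^ (j₀ + Nat.sqrt k + 1) := by exact_mod_cast h1
      refine h3.trans ?_
      rw [← hexpL, ← Real.rpow_natCast, Real.rpow_def_of_pos (by norm_num)]
      apply Real.exp_le_exp.mpr
      push_cast
      have h4 : ((Nat.sqrt k : ℕ) : ℝ) ≤ L ^ (3 / 4 : ℝ) := by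
        have h5 : ((Nat.sqrt k : ℕ) : ℝ) ^ 2 ≤ L ^ (3 / 2 : ℝ) := by
          have h6 : Nat.sqrt k ^ 2 ≤ k := Nat.sqrt_le' k
          have h7 : ((Nat.sqrt k : ℕ) : ℝ) ^ 2 ≤ w₁ := by exact_mod_cast h6.trans hk
          linarith
        calc ((Nat.sqrt k : ℕ) : ℝ) = (((Nat.sqrt k : ℕ) : ℝ) ^ 2) ^ (1 / 2 : ℝ) := by
              rw [← Real.rpow_natCast, ← Real.rpow_mul (by positivity)]; norm_num
          _ ≤ (L ^ (3 / 2 : ℝ)) ^ (1 / 2 : ℝ) := Real.rpow_le_rpow (by positivity) h5 (by norm_num)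
          _ = L ^ (3 / 4 : ℝ) := by rw [← Real.rpow_mul hL0.le]; norm_num
      have h8 : 0 ≤ Real.log 4 := Real.log_nonneg (by norm_num)
      calc Real.log 4 * ((j₀ : ℝ) + ((Nat.sqrt k : ℕ) : ℝ) + 1)
          ≤ Real.log 4 * ((j₀ : ℝ) + L ^ (3 / 4 : ℝ) + 1) := by gcongr
        _ = ((j₀ : ℝ) + 1 + L ^ (3 / 4 : ℝ)) * Real.log 4 := by ring
        _ ≤ L := hL4
    exact_mod_cast h2
  set E₁ : Finset ℕ := (Icc k₀ w₁).image (pk j₀) with hE₁
  have hE₁large : ∀ p ∈ E₁, p.Prime ∧ ¬ Nat.count Nat.Prime p < k₀ ∧ p ≠ 2 := by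
    intro p hp
    obtain ⟨k, hk, rfl⟩ := mem_image.1 hp
    have h1 := pk_large j₀ k hj3
    have h2 : k₀ ≤ k := (mem_Icc.1 hk).1
    have h3 : 4 * k₀ ^ 2 + 1 ≤ 4 * (k + 1) ^ 2 := by nlinarith
    refine ⟨pk_prime _ _, fun h => ?_, ?_⟩
    · have := hcount _ (pk_prime j₀ k) h
      omega
    · have : 4 * 1 ≤ 4 * (k + 1) ^ 2 := Nat.mul_le_mul_left 4 (Nat.one_le_pow _ _ (by omega))
      omega
  set E : Finset ℕ := E₀ ∪ E₁ with hE
  have hEprime : ∀ p ∈ E, p.Prime := by
    intro p hp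
    rcases mem_union.1 hp with h | h
    · exact hE₀prime p h
    · exact (hE₁large p h).1
  have hElew : ∀ p ∈ E, p ≤ w := by
    intro p hp
    rcases mem_union.1 hp with h | h
    · have := hcount p (hE₀prime p h) ((hE₀mem p (hE₀prime p h)).1 h)
      omega
    · obtain ⟨k, hk, rfl⟩ := mem_image.1 h
      exact hpkw k (mem_Icc.1 hk).2
  have hEcard : (E.card : ℝ) ≤ Real.exp (Real.sqrt (Real.log w)) := by
    have h1 : E.card ≤ k₀ + (w₁ + 1) := by
      refine (card_union_le _ _).trans (Nat.add_le_add ?_ ?_)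
      · refine (card_image_le).trans ?_
        simp
      · refine (card_image_le).trans ?_
        rw [Nat.card_Icc]
        omega
    have h2 : (E.card : ℝ) ≤ k₀ + (w₁ + 1) := by exact_mod_cast h1
    linarith
  have hEprod : δ / 2 ≤ ∏ p ∈ E, (1 - 1 / (p : ℝ)) := by
    have hdisj : Disjoint E₀ E₁ := by
      rw [Finset.disjoint_left]
      intro p h1 h2
      exact (hE₁large p h2).2.1 ((hE₀mem p (hE₀prime p h1)).1 h1)
    rw [hE, Finset.prod_union hdisj, ← hδ]
    have h1 := pk_prod hj3 hpk w₁ (Icc k₀ w₁) (by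
      intro k hk
      rw [mem_Icc] at hk
      exact mem_Ioc.2 ⟨by omega, hk.2⟩)
    rw [← hE₁] at h1
    nlinarith
  -- the length
  set V : ℝ := a * w * L ^ 2 * Real.log (Real.log L) / Real.log L ^ 2 with hV
  set U : ℕ := ⌊V⌋₊ with hU
  have hV0 : 0 ≤ V := by linarith
  have hUV : (U : ℝ) ≤ V := Nat.floor_le hV0
  have hVU : V < U + 1 := Nat.lt_floor_add_one _
  obtain ⟨r, hr⟩ := hpre w (by omega) E hEprime hEcard U (by
    rw [← hL]
    refine hUV.trans ?_
    have h1 : V = c * w * L ^ 2 * Real.log (Real.log L) / Real.log L ^ 2 * (δ / 2) := by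
      rw [hV, ha]; ring
    have h2 : 0 ≤ c * w * L ^ 2 * Real.log (Real.log L) / Real.log L ^ 2 := by
      by_contra hneg
      push Not at hneg
      have : V < 0 := by
        rw [h1]
        exact mul_neg_of_neg_of_pos hneg (by positivity)
      linarith
    rw [h1]
    exact mul_le_mul_of_nonneg_left hEprod h2)
  set S := (Ioc 0 U).filter fun n => ∀ p : ℕ, p.Prime → p ≤ w → p ∉ E → n % p ≠ r p with hS
  -- the primes
  set P₁ : Finset ℕ := (range (w + 1)).filter Nat.Prime with hP₁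
  set P₂ : Finset ℕ := (Ioc 0 (Nat.sqrt w)).image (ow w) with hP₂
  have hcnt := hy₀ w (by omega)
  have hP₂mem : ∀ p ∈ P₂, p.Prime ∧ w < p ∧ p ≤ 4 * w := by
    intro p hp
    obtain ⟨k, hk, rfl⟩ := mem_image.1 hp
    exact ⟨ow_prime _ _, ow_gt _ _, ow_le hcnt (mem_Ioc.1 hk).2⟩
  have hPmem : ∀ p ∈ P₁ ∪ P₂, p.Prime ∧ p ≤ w ^ 2 := by
    intro p hp
    rcases mem_union.1 hp with h | h
    · rw [hP₁, mem_filter, mem_range] at h
      refine ⟨h.2, ?_⟩
      nlinarith [h.1]
    · obtain ⟨h1, _, h2⟩ := hP₂mem p h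
      refine ⟨h1, ?_⟩
      nlinarith
  have hPprod : ((∏ p ∈ P₁ ∪ P₂, p : ℕ) : ℝ) ≤ Real.exp (2 * w) := by
    have hdisj : Disjoint P₁ P₂ := by
      rw [Finset.disjoint_left]
      intro p h1 h2
      rw [hP₁, mem_filter, mem_range] at h1
      have := (hP₂mem p h2).2.1
      omega
    rw [Finset.prod_union hdisj]
    have h1 : (∏ p ∈ P₁, p) ≤ 4 ^ w := primorial_le_four_pow w
    have h2 : (∏ p ∈ P₂, p) ≤ (4 * w) ^ (Nat.sqrt w) := by
      refine (Finset.prod_le_pow_card P₂ _ (4 * w) (fun p hp => (hP₂mem p hp).2.2)).trans ?_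
      apply Nat.pow_le_pow_right (by omega)
      refine (card_image_le).trans ?_
      simp
    push_cast
    have h3 : ((∏ p ∈ P₁, p : ℕ) : ℝ) ≤ (4 : ℝ) ^ w := by exact_mod_cast h1
    have h4 : ((∏ p ∈ P₂, p : ℕ) : ℝ) ≤ (4 * (w : ℝ)) ^ (Nat.sqrt w) := by exact_mod_cast h2
    push_cast at h3 h4
    have h5 : (4 : ℝ) ^ w ≤ Real.exp (1.4 * w) := by
      rw [← Real.rpow_natCast, Real.rpow_def_of_pos (by norm_num)]
      apply Real.exp_le_exp.mpr
      have hlog4 : Real.log 4 = 2 * Real.log 2 := by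
        rw [show (4 : ℝ) = 2 ^ 2 by norm_num, Real.log_pow]; norm_num
      have hlog2' := Real.log_two_lt_d9
      nlinarith
    have h6 : (4 * (w : ℝ)) ^ (Nat.sqrt w) ≤ Real.exp (0.6 * w) := by
      rw [← Real.rpow_natCast, Real.rpow_def_of_pos (by positivity)]
      apply Real.exp_le_exp.mpr
      have h7 : ((Nat.sqrt w : ℕ) : ℝ) ≤ Real.sqrt w := by
        refine Real.le_sqrt_of_sq_le ?_
        exact_mod_cast Nat.sqrt_le' w
      have h8 : 0 ≤ Real.log (4 * (w : ℝ)) := by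
        apply Real.log_nonneg
        have : (1 : ℝ) ≤ w := by
          have : 1 ≤ w := by omega
          exact_mod_cast this
        linarith
      calc Real.log (4 * (w : ℝ)) * ((Nat.sqrt w : ℕ) : ℝ) ≤ Real.log (4 * (w : ℝ)) * Real.sqrt w := by
            gcongr
        _ = Real.sqrt w * Real.log (4 * w) := by ring
        _ ≤ 6 / 10 * w := hw6
        _ = 0.6 * w := by norm_num
    calc (∏ p ∈ P₁, (p : ℝ)) * ∏ p ∈ P₂, (p : ℝ)
        ≤ Real.exp (1.4 * w) * Real.exp (0.6 * w) := by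
          apply mul_le_mul (h3.trans h5) (h4.trans h6)
          · exact Finset.prod_nonneg fun _ _ => Nat.cast_nonneg _
          · exact (Real.exp_pos _).le
      _ = Real.exp (2 * w) := by rw [← Real.exp_add]; congr 1; ring
  -- the classes
  set s : ℕ → ℕ := fun p => if p = 2 then 1 else
    if Nat.count Nat.Prime p < k₀ then 2 * Nat.count Nat.Prime p else
    if p ∈ E then Function.invFun (pk j₀) p else
    if p ≤ w then r p else Nat.count Nat.Prime p - Nat.count Nat.Prime (w + 1) with hs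
  obtain ⟨b, hbw, hbx, hbP, hbS⟩ := hrun w (by omega) (P₁ ∪ P₂) hPmem hPprod s S
    (by
      intro n hn
      have h1 : n ≤ U := (mem_Ioc.1 (mem_filter.1 hn).1).2
      have h2 : (U : ℝ) ≤ (w : ℝ) ^ 2 := hUV.trans hwU
      have h3 : U ≤ w ^ 2 := by exact_mod_cast h2
      omega)
    hr
  refine ⟨b, by omega, ?_, ?_⟩
  · intro k hk1 hkk
    rcases Nat.even_or_odd' k with ⟨m, hm | hm⟩
    · have hm1 : 1 ≤ m := by omega
      set p := Nat.nth Nat.Prime m with hp
      have hpp : p.Prime := Nat.prime_nth_prime m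
      have hpc : Nat.count Nat.Prime p = m :=
        Nat.count_nth_of_infinite (p := Nat.Prime) Nat.infinite_setOfPred_prime m
      have hp2 : p ≠ 2 := by
        intro h
        have h1 : Nat.count Nat.Prime p = 0 := by rw [h]; decide
        omega
      have hmk : Nat.count Nat.Prime p < k₀ := by omega
      have hpw : p ≤ w := by
        have := hcount p hpp hmk
        omega
      have h1 := hbP p (mem_union_left _ (mem_filter.2 ⟨mem_range.2 (by omega), hpp⟩)) k (by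
        rw [hs]
        simp only [hp2, if_false, hmk, if_true]
        rw [hpc, hm])
      refine (minFac_le hpp h1).trans ?_
      have := nth_le m hm1
      rw [hm]
      calc p ≤ 4 * m ^ 2 + 1 := this
        _ = (2 * m) ^ 2 + 1 := by ring
    · have h1 := hbP 2 (mem_union_left _ (mem_filter.2 ⟨mem_range.2 (by omega), Nat.prime_two⟩)) k
        (by
          rw [hs]
          simp only [if_true]
          omega)
      refine (minFac_le Nat.prime_two h1).trans ?_
      have : 1 ≤ k ^ 2 := Nat.one_le_pow _ _ (by omega)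
      omega
  · intro k hkk
    obtain ⟨⟨l3, l2, l1, l0, lp⟩, hk1, hk2⟩ := hx₁ k (hkx k hkk).1
    have hk1' := (hkx k hkk).2
    have hkpos : 0 < k := by
      have : (0 : ℝ) < k := by linarith
      exact_mod_cast this
    have hG := hGk k hkk
    rcases Nat.lt_or_ge w₁ k with hkw | hkw
    · -- `k > w₁`
      have hkL : L ^ (3 / 2 : ℝ) ≤ k := by
        have : (w₁ : ℝ) + 1 ≤ k := by exact_mod_cast hkw
        linarith
      have h4w : 4 * (w : ℝ) ≤ Real.exp (C * G k) := by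
        have h1 : 4 * (w : ℝ) = Real.exp (Real.log 4 + L) := by
          rw [Real.exp_add, hexpL, Real.exp_log (by norm_num)]
        rw [h1]
        apply Real.exp_le_exp.mpr
        refine hL27.trans (le_trans ?_ hG)
        calc L ^ (27 / 20 : ℝ) = (L ^ (3 / 2 : ℝ)) ^ (9 / 10 : ℝ) := by
              rw [← Real.rpow_mul hL0.le]; norm_num
          _ ≤ (k : ℝ) ^ (9 / 10 : ℝ) := Real.rpow_le_rpow (by positivity) hkL (by norm_num)
      rcases Nat.lt_or_ge (Nat.sqrt w) k with hks | hks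
      · rcases Nat.lt_or_ge U k with hkU | hkU
        · -- `k > U`
          have h1 : V ≤ k := by
            have : (U : ℝ) + 1 ≤ k := by exact_mod_cast hkU
            linarith
          have h2 := hinv k (hUw.trans h1) h1
          have h3 : 11 * (w : ℝ) ≤ C * G k := by
            have h4 : 88 / a * (a * w / 8) = 11 * w := by field_simp; ring
            rw [← h4]
            apply mul_le_mul hCa h2 (by positivity) (by linarith)
          have h5 : Real.exp (10 * w) ≤ Real.exp (C * G k) := Real.exp_le_exp.mpr (by linarith)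
          have h6 : 2 * (k : ℝ) ≤ Real.exp (C * G k) := by
            have h7 : 2 * (k : ℝ) = Real.exp (Real.log (2 * k)) := by
              rw [Real.exp_log (by positivity)]
            rw [h7]
            exact Real.exp_le_exp.mpr (hk2.trans hG)
          have h8 : (((b + k).minFac : ℕ) : ℝ) ≤ (b : ℝ) + k := by
            exact_mod_cast Nat.minFac_le (by omega : 0 < b + k)
          linarith
        · by_cases hkS : k ∈ S
          · obtain ⟨q, hq, hqle, hqd⟩ := hbS k hkS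
            have h1 : (((b + k).minFac : ℕ) : ℝ) ≤ q := by exact_mod_cast minFac_le hq hqd
            refine h1.trans (hqle.trans (Real.exp_le_exp.mpr ?_))
            rw [← hL]
            refine hw5.trans (le_trans ?_ hG)
            have h2 : Real.sqrt w ≤ k := by
              have h3 : w < (Nat.sqrt w + 1) ^ 2 := Nat.lt_succ_sqrt' w
              have h4 : (Nat.sqrt w + 1) ^ 2 ≤ k ^ 2 := Nat.pow_le_pow_left hks 2
              rw [Real.sqrt_le_left (by positivity)]
              exact_mod_cast (h3.trans_le h4).le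
            calc (w : ℝ) ^ (9 / 20 : ℝ) = (Real.sqrt w) ^ (9 / 10 : ℝ) := by
                  rw [Real.sqrt_eq_rpow, ← Real.rpow_mul hw0.le]; norm_num
              _ ≤ (k : ℝ) ^ (9 / 10 : ℝ) := Real.rpow_le_rpow (by positivity) h2 (by norm_num)
          · have h1 : ∃ p : ℕ, p.Prime ∧ p ≤ w ∧ p ∉ E ∧ k % p = r p := by
              by_contra hcon
              apply hkS
              rw [hS, mem_filter, mem_Ioc]
              refine ⟨⟨hkpos, hkU⟩, fun p hp hpw hpE hkp => hcon ⟨p, hp, hpw, hpE, hkp⟩⟩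
            obtain ⟨p, hp, hpw, hpE, hkp⟩ := h1
            have hpc : ¬ Nat.count Nat.Prime p < k₀ := fun h =>
              hpE (mem_union_left _ ((hE₀mem p hp).2 h))
            have hp2 : p ≠ 2 := by
              intro h
              apply hpc
              rw [h, show Nat.count Nat.Prime 2 = 0 by decide]
              omega
            have h2 := hbP p (mem_union_left _ (mem_filter.2 ⟨mem_range.2 (by omega), hp⟩)) k (by
              rw [hs]
              simp only [hp2, hpc, hpE, if_false, hpw, if_true]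
              rw [← hkp, Nat.mod_mod])
            have h3 : (((b + k).minFac : ℕ) : ℝ) ≤ w := by
              exact_mod_cast (minFac_le hp h2).trans hpw
            linarith
      · -- `w₁ < k ≤ sqrt w`
        have hkP : ow w k ∈ P₂ := mem_image.2 ⟨k, mem_Ioc.2 ⟨hkpos, hks⟩, rfl⟩
        obtain ⟨_, h1, h2⟩ := hP₂mem _ hkP
        have hnE : ow w k ∉ E := fun h => by
          have := hElew _ h
          omega
        have hpc : ¬ Nat.count Nat.Prime (ow w k) < k₀ := fun h => by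
          have := hcount _ (ow_prime w k) h
          omega
        have hp2 : ow w k ≠ 2 := by omega
        have h3 := hbP (ow w k) (mem_union_right _ hkP) k (by
          rw [hs]
          simp only [hp2, hpc, hnE, if_false, not_le.2 h1]
          rw [ow_count])
        have h4 : (((b + k).minFac : ℕ) : ℝ) ≤ 4 * w := by
          exact_mod_cast (minFac_le (ow_prime w k) h3).trans h2
        linarith
    · have hkE₁ : pk j₀ k ∈ E₁ := mem_image.2 ⟨k, mem_Icc.2 ⟨hkk, hkw⟩, rfl⟩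
      have hkE : pk j₀ k ∈ E := mem_union_right _ hkE₁
      obtain ⟨_, hpc, hp2⟩ := hE₁large _ hkE₁
      have h1 := hbP (pk j₀ k) (mem_union_left _ (mem_filter.2 ⟨mem_range.2 (by
        have := hElew _ hkE; omega), pk_prime _ _⟩)) k (by
          rw [hs]
          simp only [hp2, hpc, hkE, if_false, if_true]
          rw [Function.leftInverse_invFun (pk_inj hpk) k])
      have h2 : (((b + k).minFac : ℕ) : ℝ) ≤ (4 : ℝ) ^ (j₀ + Nat.sqrt k + 1) := by
        exact_mod_cast (minFac_le (pk_prime j₀ k) h1).trans (hpk k)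
      refine h2.trans ?_
      rw [← Real.rpow_natCast, Real.rpow_def_of_pos (by norm_num)]
      apply Real.exp_le_exp.mpr
      refine le_trans ?_ (hk1.trans hG)
      push_cast
      have h7 : ((Nat.sqrt k : ℕ) : ℝ) ≤ Real.sqrt k := by
        refine Real.le_sqrt_of_sq_le ?_
        exact_mod_cast Nat.sqrt_le' k
      have h8 : 0 ≤ Real.log 4 := Real.log_nonneg (by norm_num)
      calc Real.log 4 * ((j₀ : ℝ) + ((Nat.sqrt k : ℕ) : ℝ) + 1)
          ≤ Real.log 4 * ((j₀ : ℝ) + Real.sqrt k + 1) := by gcongr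
        _ = ((j₀ : ℝ) + 1 + Real.sqrt k) * Real.log 4 := by ring

end Pool.Agent.Lib.LPF680
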