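import Pool.Agent.Lib.PrimeGaps73.Run
import Pool.Agent.Lib.GapSieve.Presieve4
import Pool.Agent.Lib.PNT.Theta

/-!
# Least prime factors after `n`: a run with control of the prime factors
-/

set_option maxHeartbeats 4000000

namespace Pool.Agent.Lib.LPF680

open Finset LPAP

/-- CRT for a finite set of primes. -/
lemma exists_crt_set (P : Finset ℕ) (hP : ∀ p ∈ P, p.Prime) (s : ℕ → ℕ) : ∃ b₀ : ℕ,
    ∀ p ∈ P, ∀ n : ℕ, n % p = s p % p → p ∣ n + b₀ := by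
  have hs : ∀ i ∈ P, (fun p : ℕ => p) i ≠ 0 := fun i hi => (hP i hi).ne_zero
  have pp : Set.Pairwise (P : Set ℕ) (Function.onFun Nat.Coprime (fun p : ℕ => p)) := by
    intro p hp q hq hpq
    exact (Nat.coprime_primes (hP p hp) (hP q hq)).mpr hpq
  obtain ⟨b₀, hb₀⟩ := Nat.chineseRemainderOfFinset (fun p => p - s p % p) (fun p => p) P hs pp
  refine ⟨b₀, fun p hp n hn => ?_⟩
  have h1 : b₀ ≡ p - s p % p [MOD p] := hb₀ p hp
  have h2 : n ≡ s p % p [MOD p] := by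
    unfold Nat.ModEq
    rw [Nat.mod_mod, ← hn]
  have h3 : n + b₀ ≡ s p % p + (p - s p % p) [MOD p] := Nat.ModEq.add h2 h1
  have h4 : s p % p + (p - s p % p) = p := by
    have := Nat.mod_lt (s p) (hP p hp).pos
    omega
  rw [h4] at h3
  exact (Nat.modEq_zero_iff_dvd).mp (h3.trans ((Nat.modEq_zero_iff_dvd).mpr (dvd_refl p)))

/-- A run with prescribed small prime factors. `x = exp (10 w)`. -/
theorem run_fac : ∃ η : ℝ, 0 < η ∧ ∃ w₀ : ℕ, ∀ w : ℕ, w₀ ≤ w →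
    ∀ (P : Finset ℕ), (∀ p ∈ P, p.Prime ∧ p ≤ w ^ 2) → ((∏ p ∈ P, p : ℕ) : ℝ) ≤ Real.exp (2 * w) →
    ∀ (s : ℕ → ℕ) (S : Finset ℕ), (∀ n ∈ S, n ≤ w ^ 2) →
    (S.card : ℝ) ≤ η * w →
    ∃ b : ℕ, w < b ∧ (b : ℝ) ≤ Real.exp (10 * w) / 2 ∧
      (∀ p ∈ P, ∀ n : ℕ, n % p = s p % p → p ∣ b + n) ∧
      ∀ n ∈ S, ∃ q : ℕ, q.Prime ∧ (q : ℝ) ≤ Real.exp (5 * (w : ℝ) ^ (1 / 3 : ℝ) * Real.log w) ∧
        q ∣ b + n := by
  obtain ⟨A, hA, N₀, hmain⟩ := exists_all_hit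
  obtain ⟨N₁, hN₁⟩ := eventually_numeric
  set c₁ : ℝ := min 1 (1 / A) with hc₁
  have hc0 : 0 < c₁ := by rw [hc₁]; positivity
  have hc1 : c₁ ≤ 1 := min_le_left _ _
  have hcA : c₁ * A ≤ 1 := by
    have h1 : c₁ ≤ 1 / A := min_le_right _ _
    calc c₁ * A ≤ 1 / A * A := mul_le_mul_of_nonneg_right h1 hA.le
      _ = 1 := by field_simp
  set L₀ : ℝ := max 1000 (max (4 / c₁ ^ 2) (((N₀ : ℝ) + N₁ + 10) * (2 / c₁))) with hL₀
  refine ⟨c₁ / 2, by positivity, ⌈L₀⌉₊, ?_⟩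
  intro w hw P hP hPprod s S hS hScard'
  have hwL : L₀ ≤ w := (Nat.le_ceil L₀).trans (by exact_mod_cast hw)
  have hw1 : (1000 : ℝ) ≤ w := le_trans (le_max_left _ _) hwL
  have hw3 : 4 / c₁ ^ 2 ≤ w := le_trans (le_trans (le_max_left _ _) (le_max_right _ _)) hwL
  have hw4 : ((N₀ : ℝ) + N₁ + 10) * (2 / c₁) ≤ w :=
    le_trans (le_trans (le_max_right _ _) (le_max_right _ _)) hwL
  have hw0 : (0 : ℝ) < w := by linarith
  set N := ⌊c₁ * w⌋₊ with hN
  have hNle : (N : ℝ) ≤ c₁ * w := Nat.floor_le (by positivity)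
  have hNgt : c₁ * w < N + 1 := Nat.lt_floor_add_one _
  have hcx : ((N₀ : ℝ) + N₁ + 10) ≤ c₁ * w / 2 := by
    have h1 := mul_le_mul_of_nonneg_left hw4 (by positivity : 0 ≤ c₁ / 2)
    have h2 : c₁ / 2 * (((N₀ : ℝ) + N₁ + 10) * (2 / c₁)) = (N₀ : ℝ) + N₁ + 10 := by
      field_simp
    rw [h2] at h1
    linarith
  have hN0' : (0 : ℝ) ≤ N₀ := Nat.cast_nonneg _
  have hN1' : (0 : ℝ) ≤ N₁ := Nat.cast_nonneg _
  have hNhalf : c₁ * w / 2 ≤ N := by linarith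
  have hNN₀ : N₀ ≤ N := by
    have : (N₀ : ℝ) ≤ N := by linarith
    exact_mod_cast this
  have hNN₁ : N₁ ≤ N := by
    have : (N₁ : ℝ) ≤ N := by linarith
    exact_mod_cast this
  have hN10 : 10 ≤ N := by
    have : (10 : ℝ) ≤ N := by linarith
    exact_mod_cast this
  have hNR : (10 : ℝ) ≤ N := by exact_mod_cast hN10
  have hNw : N ≤ w := by
    have : (N : ℝ) ≤ w := hNle.trans (by nlinarith)
    exact_mod_cast this
  obtain ⟨hlog10, hlog6⟩ := hN₁ N hNN₁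
  have hwN2 : w ≤ N ^ 2 := by
    have h1 : (c₁ * w / 2) ^ 2 ≤ (N : ℝ) ^ 2 := pow_le_pow_left₀ (by positivity) hNhalf 2
    have h2 : 4 ≤ w * c₁ ^ 2 := by
      rw [div_le_iff₀ (by positivity)] at hw3; exact hw3
    have h3 : (c₁ * w / 2) ^ 2 = w * (w * c₁ ^ 2) / 4 := by ring
    have h4 : (w : ℝ) ≤ (N : ℝ) ^ 2 := by
      refine le_trans ?_ h1
      rw [h3]
      nlinarith
    exact_mod_cast h4
  have hw2N : w ^ 2 < N ^ 5 := by
    calc w ^ 2 ≤ (N ^ 2) ^ 2 := Nat.pow_le_pow_left hwN2 2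
      _ = N ^ 4 := by ring
      _ < N ^ 5 := Nat.pow_lt_pow_right (by omega) (by norm_num)
  set W := ∏ p ∈ P, p with hW
  have hWpos : 0 < W := Finset.prod_pos fun p hp => (hP p hp).1.pos
  have hWR : (0 : ℝ) < W := by exact_mod_cast hWpos
  set Y := (N ^ 5) ^ 2 ^ (Nat.log 8 N) with hY
  have hYexp : (Y : ℝ) ≤ Real.exp w := by
    refine le_trans (log_Y_le hlog10 hlog6 (by omega)) ?_
    apply Real.exp_le_exp.mpr
    exact_mod_cast hNw
  have hYexp2 : (Y : ℝ) ≤ Real.exp (5 * (w : ℝ) ^ (1 / 3 : ℝ) * Real.log w) := by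
    have hN0 : (0 : ℝ) < N := by linarith
    have h8 : (8 : ℝ) ^ (Nat.log 8 N) ≤ N := by
      exact_mod_cast Nat.pow_log_le_self 8 (by omega)
    have h2J : (2 : ℝ) ^ (Nat.log 8 N) ≤ (w : ℝ) ^ (1 / 3 : ℝ) := by
      have h3 : ((2 : ℝ) ^ (Nat.log 8 N)) ^ 3 ≤ w := by
        calc ((2 : ℝ) ^ (Nat.log 8 N)) ^ 3 = 8 ^ (Nat.log 8 N) := by
              rw [← pow_mul, mul_comm, pow_mul]; norm_num
          _ ≤ N := h8
          _ ≤ w := by exact_mod_cast hNw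
      calc (2 : ℝ) ^ (Nat.log 8 N) = (((2 : ℝ) ^ (Nat.log 8 N)) ^ 3) ^ (1 / 3 : ℝ) := by
            rw [← Real.rpow_natCast ((2 : ℝ) ^ (Nat.log 8 N)) 3, ← Real.rpow_mul (by positivity)]
            norm_num
        _ ≤ (w : ℝ) ^ (1 / 3 : ℝ) := Real.rpow_le_rpow (by positivity) h3 (by norm_num)
    have hYpos : (0 : ℝ) < Y := by
      have : 0 < Y := by rw [hY]; positivity
      exact_mod_cast this
    rw [← Real.log_le_iff_le_exp hYpos]
    have hlogY : Real.log (Y : ℝ) = (2 : ℝ) ^ (Nat.log 8 N) * (5 * Real.log N) := by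
      rw [hY]
      push_cast
      rw [Real.log_pow, Real.log_pow]
      push_cast
      ring
    rw [hlogY]
    have hlogN : Real.log N ≤ Real.log w := Real.log_le_log hN0 (by exact_mod_cast hNw)
    have hlogN0 : 0 ≤ Real.log N := by linarith
    calc (2 : ℝ) ^ (Nat.log 8 N) * (5 * Real.log N)
        ≤ (w : ℝ) ^ (1 / 3 : ℝ) * (5 * Real.log w) := by gcongr
      _ = _ := by ring
  set X := ⌊Real.exp (10 * w) / 2⌋₊ with hX
  have hXle : (X : ℝ) ≤ Real.exp (10 * w) / 2 := Nat.floor_le (by positivity)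
  have hXgt : Real.exp (10 * w) / 2 < X + 1 := Nat.lt_floor_add_one _
  have he1 : 100 * Real.exp w ≤ Real.exp (10 * w) := by
    have h1 : Real.exp (10 * (w : ℝ)) = Real.exp (9 * w) * Real.exp w := by
      rw [← Real.exp_add]; congr 1; ring
    have h2 : (100 : ℝ) ≤ Real.exp (9 * w) := by
      have := Real.add_one_le_exp (9 * (w : ℝ)); linarith
    rw [h1]
    exact mul_le_mul_of_nonneg_right h2 (Real.exp_pos _).le
  have he2 : (w : ℝ) + 1 ≤ Real.exp w := Real.add_one_le_exp _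
  have hYX : Y ≤ X := by
    have : (Y : ℝ) ≤ X := by linarith
    exact_mod_cast this
  have hScard : S.card ≤ N := by
    have h1 : (S.card : ℝ) ≤ N := by
      calc (S.card : ℝ) ≤ c₁ / 2 * (w : ℝ) := hScard'
        _ = c₁ * w / 2 := by ring
        _ ≤ N := hNhalf
    exact_mod_cast h1
  have hSlt : ∀ n ∈ S, n < N ^ 5 := fun n hn => lt_of_le_of_lt (hS n hn) hw2N
  obtain ⟨b₀, hb₀⟩ := exists_crt_set P (fun p hp => (hP p hp).1) s
  have hineq : (2 : ℝ) ^ (1 : ℕ).primeFactors.card * Real.exp (A * N) <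
      ((X : ℝ) - (Y : ℝ)) / W * ((1 : ℕ).totient / (1 : ℕ)) := by
    have h0 : (2 : ℝ) ^ (1 : ℕ).primeFactors.card = 1 := by simp
    have h00 : (((1 : ℕ).totient : ℝ) / ((1 : ℕ) : ℝ)) = 1 := by simp
    rw [h0, h00, one_mul, mul_one]
    have h1 : Real.exp (A * N) ≤ Real.exp w := by
      apply Real.exp_le_exp.mpr
      calc A * (N : ℝ) ≤ A * (c₁ * w) := mul_le_mul_of_nonneg_left hNle hA.le
        _ = (c₁ * A) * w := by ring
        _ ≤ 1 * w := mul_le_mul_of_nonneg_right hcA hw0.le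
        _ = w := by ring
    have h2 : Real.exp (10 * w) / 4 ≤ (X : ℝ) - Y := by linarith
    have h3 : Real.exp (10 * w) / 4 / Real.exp (2 * w) ≤ ((X : ℝ) - Y) / W :=
      div_le_div₀ (by linarith [Real.exp_pos (10 * (w : ℝ))]) h2 hWR hPprod
    refine lt_of_lt_of_le (lt_of_le_of_lt h1 ?_) h3
    rw [lt_div_iff₀ (Real.exp_pos _), ← Real.exp_add]
    have h4 : Real.exp (10 * (w : ℝ)) = Real.exp (w + 2 * w) * Real.exp (7 * w) := by
      rw [← Real.exp_add]; congr 1; ring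
    have h5 : 5 ≤ Real.exp (7 * (w : ℝ)) := by
      have := Real.add_one_le_exp (7 * (w : ℝ)); linarith
    rw [h4]
    have h6 := Real.exp_pos ((w : ℝ) + 2 * w)
    have h7 := mul_le_mul_of_nonneg_left h5 h6.le
    linarith
  obtain ⟨b, hbY, hbX, hbb₀, _, hbS⟩ := hmain N hNN₀ 1 X one_ne_zero S hScard hSlt
    (by simp) W hWpos (Nat.coprime_one_right W)
    (fun p hp hpW => by
      obtain ⟨q, hq, hpq⟩ := (Prime.dvd_finsetProd_iff hp.prime _).mp hpW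
      have h1 := (Nat.prime_dvd_prime_iff_eq hp (hP q hq).1).mp hpq
      rw [h1]
      exact (hP q hq).2.trans hw2N.le) hYX hineq b₀
  rw [← hY] at hbY hbS
  have hwY : w ≤ Y := by
    calc w ≤ w ^ 2 := Nat.le_self_pow (by norm_num) w
      _ ≤ N ^ 5 := hw2N.le
      _ = (N ^ 5) ^ 1 := (pow_one _).symm
      _ ≤ (N ^ 5) ^ 2 ^ (Nat.log 8 N) := Nat.pow_le_pow_right (by positivity) Nat.one_le_two_pow
  refine ⟨b, by omega, ?_, ?_, ?_⟩
  · have hbx : (b : ℝ) ≤ X := by exact_mod_cast hbX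
    linarith
  · intro p hp n hn
    have h2 := hb₀ p hp n hn
    have hpW : p ∣ W := Finset.dvd_prod_of_mem _ hp
    have h3 : b ≡ b₀ [MOD p] := hbb₀.of_dvd hpW
    have h4 : n + b ≡ n + b₀ [MOD p] := Nat.ModEq.add_left _ h3
    rw [add_comm]
    exact (Nat.modEq_zero_iff_dvd).mp (h4.trans ((Nat.modEq_zero_iff_dvd).mpr h2))
  · intro n hn
    obtain ⟨q, hq, hqY, hqd⟩ := hbS n hn
    rw [one_mul, add_comm] at hqd
    exact ⟨q, hq, le_trans (by exact_mod_cast hqY) hYexp2, hqd⟩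

end Pool.Agent.Lib.LPF680
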